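import Pool.Agent.H18.TE.Targets

/-!
# Row GAL: existence of the Galois averages
-/

set_option autoImplicit false

open MvPolynomial
open Pool.Agent.H12.ZD (pmap v O Res DenseOrbit NoInv)
open Pool.Agent.H18.HIT
open Pool.Agent.H8.ZA (HFam Const NA sz)
open Pool.Agent.H8.TD
open Pool.Agent.H18.TE

namespace Pool.Agent.H33.BKH

theorem pf_GAL : T_GAL := by
  classical
  intro K S
  set L₁ : IntermediateField K Qb := IntermediateField.adjoin K (S : Set Qb) with hL₁
  have : Algebra.IsAlgebraic K Qb := Algebra.IsAlgebraic.tower_top (K := ℚ) K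
  have : IsAlgClosure K Qb := ⟨inferInstance, inferInstance⟩
  have : Normal K Qb := IsAlgClosure.normal K Qb
  have : FiniteDimensional K L₁ :=
    IntermediateField.finiteDimensional_adjoin (fun x _ => Algebra.IsIntegral.isIntegral x)
  set L : IntermediateField K Qb := IntermediateField.normalClosure K L₁ Qb with hL
  have : FiniteDimensional K L := normalClosure.is_finiteDimensional K L₁ Qb
  have : Normal K L := normalClosure.normal K L₁ Qb
  have : Fintype (L ≃ₐ[K] L) := Fintype.ofFinite _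
  have hc : ∀ (g : L ≃ₐ[K] L) (c : Qb) (hcL : c ∈ L), g.liftNormal Qb c = (g ⟨c, hcL⟩ : Qb) := by
    intro g c hcL
    exact AlgEquiv.liftNormal_commutes g Qb ⟨c, hcL⟩
  have hinj : Function.Injective (fun g : L ≃ₐ[K] L => (g.liftNormal Qb : Qb ≃ₐ[K] Qb)) := by
    intro g g' h
    refine AlgEquiv.ext fun x => Subtype.ext ?_
    have h1 := hc g x x.2
    have h2 := hc g' x x.2
    have h3 : g.liftNormal Qb (x : Qb) = g'.liftNormal Qb (x : Qb) := by
      have h4 : (g.liftNormal Qb : Qb ≃ₐ[K] Qb) = g'.liftNormal Qb := h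
      rw [h4]
    rw [h1, h2] at h3
    exact h3
  set Γ : Finset (Qb ≃ₐ[K] Qb) :=
    (Finset.univ : Finset (L ≃ₐ[K] L)).map ⟨fun g => g.liftNormal Qb, hinj⟩ with hΓ
  have hmem : ∀ g : L ≃ₐ[K] L, (g.liftNormal Qb : Qb ≃ₐ[K] Qb) ∈ Γ := by
    intro g
    rw [hΓ, Finset.mem_map]
    exact ⟨g, Finset.mem_univ _, rfl⟩
  have hbij : Function.Bijective
      (fun g : L ≃ₐ[K] L => (⟨g.liftNormal Qb, hmem g⟩ : Γ)) := by
    constructor
    · intro g g' h
      exact hinj (congrArg Subtype.val h)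
    · intro σ
      obtain ⟨g, -, hg⟩ := Finset.mem_map.1 σ.2
      exact ⟨g, Subtype.ext hg⟩
  refine ⟨Γ, L, ?_, ⟨⟨_, hmem 1⟩, ?_⟩⟩
  · intro x hx
    have h1 : x ∈ L₁ := IntermediateField.subset_adjoin K _ hx
    have h2 : L₁ ≤ L := by
      rw [hL]
      exact IntermediateField.le_normalClosure L₁
    exact h2 h1
  · intro τ
    set e : (L ≃ₐ[K] L) ≃ Γ := Equiv.ofBijective _ hbij with he
    refine ⟨e.symm.trans ((Equiv.mulLeft (τ.restrictNormal L)).trans e), ?_⟩
    intro σ c hcL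
    obtain ⟨g, rfl⟩ := e.surjective σ
    have h1 : ∀ g' : L ≃ₐ[K] L, ((e g' : Γ) : Qb ≃ₐ[K] Qb) c = (g' ⟨c, hcL⟩ : Qb) :=
      fun g' => hc g' c hcL
    rw [Equiv.trans_apply, Equiv.trans_apply, Equiv.symm_apply_apply, h1, h1]
    have h2 := AlgEquiv.restrictNormal_commutes τ L (g ⟨c, hcL⟩)
    exact h2.symm

end Pool.Agent.H33.BKH
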