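import Pool.Agent.H18.TE.Targets
import Pool.Agent.H8.TD.Basic

/-!
# Row LFX: the preimages under the reduced iterate come from preimages under a higher iterate
-/

set_option autoImplicit false

open MvPolynomial
open Pool.Agent.H12.ZD (pmap v O Res DenseOrbit NoInv)
open Pool.Agent.H18.HIT
open Pool.Agent.H8.ZA (HFam Const NA sz)
open Pool.Agent.H8.TD
open Pool.Agent.H18.TE

namespace Pool.Agent.H33.BKH

section

variable {N : ℕ} {k : Type} [Field k]

theorem it_inj {f : Tup N k} (hf : Function.Injective (aeval f : Po N k →ₐ[k] Po N k)) (n : ℕ) :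
    Function.Injective (aeval (it f n) : Po N k →ₐ[k] Po N k) := by
  induction n with
  | zero =>
    intro a b hab
    rw [it_zero, aeval_X_left_apply, aeval_X_left_apply] at hab
    exact hab
  | succ n ih =>
    intro a b hab
    rw [aeval_it_succ, aeval_it_succ] at hab
    exact hf (ih hab)

theorem pmap_scale {F : Tup N k} {d : ℕ} (hF : ∀ i, (F i).IsHomogeneous d) (a : k)
    (x : Fin N → k) : pmap F (fun i => a * x i) = fun i => a ^ d * pmap F x i :=
  funext fun i => eval_smul (hF i) a x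

theorem pmap_it_scale {F : Tup N k} {d : ℕ} (hF : ∀ i, (F i).IsHomogeneous d) (n : ℕ) (a : k)
    (x : Fin N → k) :
    (pmap F)^[n] (fun i => a * x i) = fun i => a ^ (d ^ n) * (pmap F)^[n] x i := by
  induction n with
  | zero =>
    rw [pow_zero, pow_one, Function.iterate_zero, id, id]
  | succ n ih =>
    rw [Function.iterate_succ_apply', Function.iterate_succ_apply', ih, pmap_scale hF]
    funext i
    rw [← pow_mul, pow_succ]

end

theorem pf_LFX (hELM : T_ELM) (hPEL : T_PEL) (hCVE : T_CVE) : T_LFX := by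
  intro F G h d a m k hd ha hmk hF hG hinj hit
  have hroot : ∀ (n : ℕ) (z : Qb), 1 ≤ n → ∃ t : Qb, t ^ n = z := fun n z hn =>
    IsAlgClosed.exists_pow_nat_eq z hn
  have hFG : ∀ (y : Fin 4 → Qb) (i : Fin 4), (pmap F)^[m] y i = eval y h * pmap G y i := by
    intro y i
    rw [← pmap_it]
    have h1 : pmap (it F m) y i = eval y (it F m i) := rfl
    rw [h1, hit, map_mul]
    rfl
  have hinjm := it_inj hinj m
  have hGinj : Function.Injective (aeval G : Po 4 Qb →ₐ[Qb] Po 4 Qb) := by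
    rw [injective_iff_map_eq_zero]
    intro q hq
    apply hinjm
    rw [map_zero]
    apply MvPolynomial.funext
    intro y
    obtain ⟨t, ht⟩ := hroot a (eval y h) ha
    have h1 : pmap (it F m) y = pmap G (fun i => t * y i) := by
      rw [pmap_it, pmap_scale hG]
      funext i
      rw [hFG, ht]
    rw [eval_aeval, h1, ← eval_aeval, hq, map_zero, map_zero]
  have hh : h ≠ 0 := by
    intro h0
    have h1 : it F m 0 = 0 := by rw [hit, h0, zero_mul]
    have h2 : aeval (it F m) (X 0 : Po 4 Qb) = aeval (it F m) (0 : Po 4 Qb) := by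
      rw [aeval_X, h1, map_zero]
    exact X_ne_zero (0 : Fin 4) (hinjm h2)
  obtain ⟨c', hc', q', hq'⟩ := hELM 4 Qb G hGinj h hh
  obtain ⟨θ, Φ, Δ, R, hprim⟩ := hPEL 4 Qb (it F (k - m)) (it_inj hinj (k - m))
  obtain ⟨c₂, hc₂, hcov⟩ := hCVE 4 Qb (it F (k - m)) θ Φ Δ R (it_inj hinj (k - m)) hprim
  have hdeg : 1 ≤ Φ.natDegree := by
    rw [Nat.one_le_iff_ne_zero]
    intro h0
    have h1 : Φ = 1 := (Polynomial.Monic.natDegree_eq_zero hprim.monic).1 h0
    exact hprim.irr.not_isUnit (h1 ▸ isUnit_one)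
  obtain ⟨c₃, hc₃, q₃, hq₃⟩ := hELM 4 Qb (it F m) hinjm c₂ hc₂
  refine ⟨X 0 * c' * c₃, mul_ne_zero (mul_ne_zero (X_ne_zero 0) hc') hc₃, ?_⟩
  intro x hx w hw haff
  rw [map_mul, map_mul, eval_X] at hx
  have hx0 : x 0 ≠ 0 := left_ne_zero_of_mul (left_ne_zero_of_mul hx)
  have hxc' : eval x c' ≠ 0 := right_ne_zero_of_mul (left_ne_zero_of_mul hx)
  have hxc₃ : eval x c₃ ≠ 0 := right_ne_zero_of_mul hx
  set Y₀ : Fin 4 → Qb := Fin.cons 1 w with hY₀
  have hg0 : pmap G Y₀ 0 ≠ 0 := by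
    rw [eval_dh] at hw
    exact hw
  have hGY₀ : pmap G Y₀ = fun i => pmap G Y₀ 0 / x 0 * x i := by
    funext i
    refine Fin.cases ?_ (fun j => ?_) i
    · rw [div_mul_cancel₀ _ hx0]
    · have h1 := congrFun haff j
      simp only [aff] at h1
      rw [div_eq_div_iff hg0 hx0] at h1
      rw [div_mul_eq_mul_div, eq_div_iff hx0, h1, mul_comm]
  have hμ : pmap G Y₀ 0 / x 0 ≠ 0 := div_ne_zero hg0 hx0
  obtain ⟨t, ht⟩ := hroot a (pmap G Y₀ 0 / x 0)⁻¹ ha
  have ht0 : t ≠ 0 := by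
    rintro rfl
    rw [zero_pow (by omega)] at ht
    exact inv_ne_zero hμ ht.symm
  set Y : Fin 4 → Qb := fun i => t * Y₀ i with hY
  have hGY : pmap G Y = x := by
    rw [hY, pmap_scale hG, ht]
    funext i
    have h1 : pmap G Y₀ i = pmap G Y₀ 0 / x 0 * x i := congrFun hGY₀ i
    rw [h1, ← mul_assoc, inv_mul_cancel₀ hμ, one_mul]
  have hYh : eval Y h ≠ 0 := by
    have h1 : eval Y (aeval G c') = eval x c' := by rw [eval_aeval, hGY]
    rw [hq', map_mul] at h1
    intro h0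
    rw [h0, zero_mul] at h1
    exact hxc' h1.symm
  have hdm : 1 ≤ d ^ m := Nat.one_le_pow _ _ hd
  obtain ⟨l, hl⟩ := hroot (d ^ m) (eval Y h)⁻¹ hdm
  have hl0 : l ≠ 0 := by
    rintro rfl
    rw [zero_pow (by omega)] at hl
    exact inv_ne_zero hYh hl.symm
  set Z : Fin 4 → Qb := fun i => l * Y i with hZ
  have hFZ : (pmap F)^[m] Z = x := by
    rw [hZ, pmap_it_scale hF, hl]
    funext i
    rw [hFG, hGY, ← mul_assoc, inv_mul_cancel₀ hYh, one_mul]
  have hZc₂ : eval Z c₂ ≠ 0 := by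
    have h1 : eval Z (aeval (it F m) c₃) = eval x c₃ := by rw [eval_aeval, pmap_it, hFZ]
    rw [hq₃, map_mul] at h1
    intro h0
    rw [h0, zero_mul] at h1
    exact hxc₃ h1.symm
  obtain ⟨S, hS, hSZ⟩ := hcov Z hZc₂
  have hSne : S.Nonempty := Finset.card_pos.1 (by rw [hS]; exact hdeg)
  obtain ⟨P, hP⟩ := hSne
  have hPZ : (pmap F)^[k - m] P = Z := by
    rw [← pmap_it]
    exact hSZ P hP
  refine ⟨P, ?_, ?_⟩
  · have h1 : k = m + (k - m) := by omega
    rw [h1, Function.iterate_add_apply, hPZ, hFZ]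
  · rw [hPZ]
    funext i
    have h2 : aff Z i = Z i.succ / Z 0 := rfl
    have h3 : Z i.succ = l * (t * w i) := by
      rw [hZ, hY, hY₀]
      simp only [Fin.cons_succ]
    have h4 : Z 0 = l * (t * 1) := by
      rw [hZ, hY, hY₀]
      simp only [Fin.cons_zero]
    rw [h2, h3, h4]
    field_simp

end Pool.Agent.H33.BKH
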